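import Mathlib

/-!
# Powers near zero and Legendre transforms (helper40)

Real analysis for the modules A and B of `Pool/Agent/T6/H53/FR`: for a rate function `R` and its
Legendre transform `M` the exponents of `M` at zero correspond to the exponents of `R` at zero.
-/

set_option autoImplicit false

namespace Pool.Agent.T6.H40.FRCore

open Filter Topology

lemma small {α β : ℝ} (C : ℝ) (h : β < α) : ∀ᶠ t in 𝓝[>] (0 : ℝ), C * t ^ α ≤ t ^ β := by
  have h1 : Tendsto (fun t : ℝ => C * t ^ (α - β)) (𝓝[>] 0) (𝓝 (C * 0)) := by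
    apply Tendsto.const_mul
    have h2 : ContinuousAt (fun t : ℝ => t ^ (α - β)) 0 :=
      Real.continuousAt_rpow_const _ _ (Or.inr (by linarith))
    have h3 := h2.tendsto
    rw [Real.zero_rpow (by linarith)] at h3
    exact h3.mono_left nhdsWithin_le_nhds
  rw [mul_zero] at h1
  filter_upwards [h1.eventually (gt_mem_nhds one_pos), self_mem_nhdsWithin] with t ht ht0
  have ht0' : (0 : ℝ) < t := ht0
  have h4 : t ^ α = t ^ (α - β) * t ^ β := by
    rw [← Real.rpow_add ht0']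
    ring_nf
  rw [h4, ← mul_assoc]
  have h5 : 0 < t ^ β := Real.rpow_pos_of_pos ht0' _
  nlinarith

lemma tend {c p : ℝ} (hc : 0 < c) (hp : 0 < p) :
    Tendsto (fun v : ℝ => (c * v) ^ p) (𝓝[>] 0) (𝓝[>] 0) := by
  rw [tendsto_nhdsWithin_iff]
  constructor
  · have h1 : Continuous (fun v : ℝ => (c * v) ^ p) :=
      (continuous_const.mul continuous_id).rpow_const (fun _ => Or.inr hp.le)
    have h2 := h1.tendsto 0
    simp only [mul_zero] at h2
    rw [Real.zero_rpow hp.ne'] at h2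
    exact h2.mono_left nhdsWithin_le_nhds
  · filter_upwards [self_mem_nhdsWithin] with v hv
    have hv' : (0 : ℝ) < v := hv
    exact Real.rpow_pos_of_pos (by positivity) _

lemma tend1 {p : ℝ} (hp : 0 < p) : Tendsto (fun v : ℝ => v ^ p) (𝓝[>] 0) (𝓝[>] 0) := by
  have := tend one_pos hp
  simpa using this

lemma ev_le_one : ∀ᶠ t in 𝓝[>] (0 : ℝ), t ≤ 1 := by
  filter_upwards [Ioo_mem_nhdsGT (zero_lt_one' ℝ)] with t ht
  exact ht.2.le

section

variable {R M : ℝ → ℝ}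

theorem low_to_ge {θ : ℝ} (_ : 0 < θ) (h1 : θ < 1)
    (hle : ∀ v e : ℝ, 0 ≤ v → v ≤ 1 → 0 < e → v * M e - e ≤ R v)
    (hM : ∀ η : ℝ, 0 < η → ∀ᶠ e in 𝓝[>] (0 : ℝ), e ^ (θ + η) ≤ M e) :
    ∀ ε : ℝ, 0 < ε → ∀ᶠ u in 𝓝[>] (0 : ℝ), u ^ (1 / (1 - θ) + ε) ≤ R u := by
  intro ε hε
  have hθ : 0 < 1 - θ := by linarith
  have hp0 : 0 < 1 / (1 - θ) := by positivity
  obtain ⟨q, hq1, hq2⟩ : ∃ q, 1 / (1 / (1 - θ) + ε) < q ∧ q < 1 - θ := by
    apply exists_between
    rw [div_lt_iff₀ (by positivity), mul_add, mul_one_div_cancel hθ.ne']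
    nlinarith
  have hq0 : 0 < q := lt_trans (by positivity) hq1
  have hq3 : 1 / q < 1 / (1 - θ) + ε := by
    rw [div_lt_iff₀ hq0]
    rw [div_lt_iff₀ (by positivity)] at hq1
    linarith
  have he := (tend (c := 1 / 2) (p := 1 / q) (by norm_num) (by positivity)).eventually
    (hM (1 - θ - q) (by linarith))
  filter_upwards [he, self_mem_nhdsWithin, ev_le_one, small (2 ^ (1 / q)) hq3] with v h2 hv hv1 h3
  have hv0 : (0 : ℝ) < v := hv
  set e : ℝ := (1 / 2 * v) ^ (1 / q) with hedef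
  have he0 : 0 < e := Real.rpow_pos_of_pos (by positivity) _
  have hev : e ^ q = 1 / 2 * v := by
    rw [hedef, ← Real.rpow_mul (by positivity), one_div_mul_cancel hq0.ne', Real.rpow_one]
  have h4 : θ + (1 - θ - q) = 1 - q := by ring
  rw [h4] at h2
  have h5 : v * e ^ (1 - q) = 2 * e := by
    have h6 : v = 2 * e ^ q := by rw [hev]; ring
    rw [h6, mul_assoc, ← Real.rpow_add he0]
    have : q + (1 - q) = 1 := by ring
    rw [this, Real.rpow_one]
  have h7 := hle v e hv0.le hv1 he0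
  have h8 : v * e ^ (1 - q) ≤ v * M e := mul_le_mul_of_nonneg_left h2 hv0.le
  have h9 : v ^ (1 / (1 - θ) + ε) ≤ e := by
    have h10 : e = v ^ (1 / q) / 2 ^ (1 / q) := by
      rw [hedef, ← Real.div_rpow hv0.le (by norm_num)]
      congr 1
      ring
    rw [h10, le_div_iff₀ (by positivity), mul_comm]
    exact h3
  linarith

theorem ge_to_low {θ : ℝ} (h0 : 0 < θ) (h1 : θ < 1)
    (hmono : ∀ v v' : ℝ, 0 ≤ v → v ≤ v' → v' ≤ 1 → R v ≤ R v')
    (hpos : ∀ u : ℝ, 0 < u → u ≤ 1 → 0 < R u) (hMpos : ∀ e : ℝ, 0 < e → 0 < M e)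
    (hsp : ∀ e : ℝ, 0 < e → ∀ d : ℝ, 0 < d → ∃ u : ℝ, 0 < u ∧ u ≤ 1 ∧ e + R u < (M e + d) * u)
    (hR : ∀ ε : ℝ, 0 < ε → ∀ᶠ u in 𝓝[>] (0 : ℝ), u ^ (1 / (1 - θ) + ε) ≤ R u) :
    ∀ η : ℝ, 0 < η → ∀ᶠ e in 𝓝[>] (0 : ℝ), e ^ (θ + η) ≤ M e := by
  intro η hη
  have hθ : 0 < 1 - θ := by linarith
  obtain ⟨r, hr1, hr2⟩ : ∃ r, max (1 - θ - η) 0 < r ∧ r < 1 - θ :=
    exists_between (max_lt (by linarith) hθ)
  have hr0 : 0 < r := (le_max_right _ _).trans_lt hr1
  have hr3 : 1 - θ - η < r := (le_max_left _ _).trans_lt hr1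
  have hp : 0 < 1 / r - 1 / (1 - θ) := by
    have := one_div_lt_one_div_of_lt hr0 hr2
    linarith
  have h2 := hR _ hp
  have h3 : 1 / (1 - θ) + (1 / r - 1 / (1 - θ)) = 1 / r := by ring
  rw [h3] at h2
  obtain ⟨δ, hδ0, hδ⟩ := (mem_nhdsGT_iff_exists_Ioo_subset).1 h2
  have hδ0' : (0 : ℝ) < δ := hδ0
  set u0 : ℝ := min δ 1 with hu0
  have hu00 : 0 < u0 := lt_min hδ0' one_pos
  have hu01 : u0 ≤ 1 := min_le_right _ _
  have hc0 : 0 < R (u0 / 2) := hpos _ (by positivity) (by linarith)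
  have hs1 : 1 - r < θ + η := by linarith
  have hs2 : 0 < 1 - r := by linarith
  have h4 : ∀ᶠ e in 𝓝[>] (0 : ℝ), e ^ (1 - r) ≤ R (u0 / 2) := by
    have := (tend1 hs2).mono_right nhdsWithin_le_nhds
    filter_upwards [this.eventually (gt_mem_nhds hc0)] with e he using he.le
  filter_upwards [h4, self_mem_nhdsWithin, small 2 hs1] with e h5 he h6
  have he0 : (0 : ℝ) < e := he
  have hMe := hMpos e he0
  have key : e ^ (1 - r) ≤ 2 * M e := by
    obtain ⟨u, hu0', hu1, hu2⟩ := hsp e he0 (M e) hMe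
    have hu3 : e + R u < 2 * M e * u := by linarith
    rcases le_or_gt u (e ^ r) with hc | hc
    · have h7 : e < 2 * M e * e ^ r := by
        have h8 : 0 < R u := hpos u hu0' hu1
        have h9 : 2 * M e * u ≤ 2 * M e * e ^ r := mul_le_mul_of_nonneg_left hc (by positivity)
        linarith
      have h10 : e ^ (1 - r) * e ^ r = e := by
        rw [← Real.rpow_add he0]
        have : 1 - r + r = 1 := by ring
        rw [this, Real.rpow_one]
      have h11 : 0 < e ^ r := Real.rpow_pos_of_pos he0 _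
      nlinarith
    · rcases lt_or_ge u u0 with hc2 | hc2
      · have h7 : u ^ (1 / r) ≤ R u := hδ ⟨hu0', hc2.trans_le (min_le_left _ _)⟩
        have h8 : u ^ (1 / r) = u ^ (1 / r - 1) * u := by
          nth_rewrite 3 [← Real.rpow_one u]
          rw [← Real.rpow_add hu0']
          ring_nf
        have h9 : u ^ (1 / r - 1) ≤ 2 * M e := by
          have h10 : u ^ (1 / r - 1) * u < 2 * M e * u := by linarith
          exact (lt_of_mul_lt_mul_right h10 hu0'.le).le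
        have h11 : (e ^ r) ^ (1 / r - 1) ≤ u ^ (1 / r - 1) := by
          apply Real.rpow_le_rpow (Real.rpow_nonneg he0.le _) hc.le
          have : 1 < 1 / r := by
            rw [lt_div_iff₀ hr0]
            linarith
          linarith
        have h12 : (e ^ r) ^ (1 / r - 1) = e ^ (1 - r) := by
          rw [← Real.rpow_mul he0.le]
          congr 1
          field_simp
        linarith
      · have h7 : R (u0 / 2) ≤ R u := hmono _ _ (by positivity) (by linarith) hu1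
        have h8 : 2 * M e * u ≤ 2 * M e * 1 := mul_le_mul_of_nonneg_left hu1 (by positivity)
        linarith
  linarith

theorem up_to_le {θ : ℝ} (h0 : 0 < θ) (h1 : θ < 1)
    (hcv : ∀ v u : ℝ, 0 < v → v ≤ u → u ≤ 1 → R v * u ≤ v * R u)
    (hpos : ∀ u : ℝ, 0 < u → u ≤ 1 → 0 < R u) (hMpos : ∀ e : ℝ, 0 < e → 0 < M e)
    (hsp : ∀ e : ℝ, 0 < e → ∀ d : ℝ, 0 < d → ∃ u : ℝ, 0 < u ∧ u ≤ 1 ∧ e + R u < (M e + d) * u)
    (hM : ∀ η : ℝ, 0 < η → ∀ᶠ e in 𝓝[>] (0 : ℝ), M e ≤ e ^ (θ - η)) :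
    ∀ ε : ℝ, 0 < ε → ∀ᶠ u in 𝓝[>] (0 : ℝ), R u ≤ u ^ (1 / (1 - θ) - ε) := by
  intro ε hε
  have hθ : 0 < 1 - θ := by linarith
  have hp1 : 1 < 1 / (1 - θ) := by
    rw [lt_div_iff₀ hθ]
    linarith
  obtain ⟨x, hx1, hx2⟩ : ∃ x, max 1 (1 / (1 - θ) - ε) < x ∧ x < 1 / (1 - θ) :=
    exists_between (max_lt hp1 (by linarith))
  have hx3 : 1 < x := (le_max_left _ _).trans_lt hx1
  have hx4 : 1 / (1 - θ) - ε < x := (le_max_right _ _).trans_lt hx1
  have hx0 : 0 < x := by linarith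
  have hq : 1 - θ < 1 / x := by
    rw [lt_div_iff₀ hx0]
    rw [lt_div_iff₀ hθ] at hx2
    linarith
  have he := (tend (c := 2) (p := x) (by norm_num) hx0).eventually
    (hM (1 / x - (1 - θ)) (by linarith))
  filter_upwards [he, self_mem_nhdsWithin, small (2 ^ x) hx4] with v h2 hv h3
  have hv0 : (0 : ℝ) < v := hv
  set e : ℝ := (2 * v) ^ x with hedef
  have he0 : 0 < e := Real.rpow_pos_of_pos (by positivity) _
  have hev : e ^ (1 / x) = 2 * v := by
    rw [hedef, ← Real.rpow_mul (by positivity), mul_one_div_cancel hx0.ne', Real.rpow_one]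
  have h4 : θ - (1 / x - (1 - θ)) = 1 - 1 / x := by ring
  rw [h4] at h2
  have hMe := hMpos e he0
  obtain ⟨u, hu0, hu1, hu2⟩ := hsp e he0 (M e) hMe
  have hu3 : e + R u < 2 * M e * u := by linarith
  have h5 : e ^ (1 - 1 / x) * (2 * v) = e := by
    rw [← hev, ← Real.rpow_add he0]
    have : 1 - 1 / x + 1 / x = 1 := by ring
    rw [this, Real.rpow_one]
  have h6 : 0 < R u := hpos u hu0 hu1
  have hpp : 0 < e ^ (1 - 1 / x) := Real.rpow_pos_of_pos he0 _
  have h7 : v ≤ u := by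
    have h8 : e < 2 * e ^ (1 - 1 / x) * u := by
      have : 2 * M e * u ≤ 2 * e ^ (1 - 1 / x) * u := by
        apply mul_le_mul_of_nonneg_right _ hu0.le
        linarith
      linarith
    have h9 : e ^ (1 - 1 / x) * (2 * v) < e ^ (1 - 1 / x) * (2 * u) := by
      rw [h5]
      linarith
    have := lt_of_mul_lt_mul_left h9 hpp.le
    linarith
  have h8 := hcv v u hv0 h7 hu1
  have h9 : R v ≤ e := by
    have h10 : R v * u ≤ e * u := by
      have h11 : v * R u ≤ v * (2 * M e * u) := mul_le_mul_of_nonneg_left (by linarith) hv0.le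
      have h12 : v * (2 * M e * u) ≤ v * (2 * e ^ (1 - 1 / x) * u) := by
        apply mul_le_mul_of_nonneg_left _ hv0.le
        apply mul_le_mul_of_nonneg_right _ hu0.le
        linarith
      have h13 : v * (2 * e ^ (1 - 1 / x) * u) = e * u := by
        calc v * (2 * e ^ (1 - 1 / x) * u) = (e ^ (1 - 1 / x) * (2 * v)) * u := by ring
          _ = e * u := by rw [h5]
      linarith
    exact le_of_mul_le_mul_right h10 hu0
  have h14 : e = 2 ^ x * v ^ x := by
    rw [hedef, Real.mul_rpow (by norm_num) hv0.le]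
  rw [← h14] at h3
  linarith

theorem le_to_up {θ : ℝ} (h0 : 0 < θ) (h1 : θ < 1)
    (hle : ∀ v e : ℝ, 0 ≤ v → v ≤ 1 → 0 < e → v * M e - e ≤ R v)
    (hR : ∀ ε : ℝ, 0 < ε → ∀ᶠ u in 𝓝[>] (0 : ℝ), R u ≤ u ^ (1 / (1 - θ) - ε)) :
    ∀ η : ℝ, 0 < η → ∀ᶠ e in 𝓝[>] (0 : ℝ), M e ≤ e ^ (θ - η) := by
  intro η hη
  have hθ : 0 < 1 - θ := by linarith
  obtain ⟨r, hr1, hr2⟩ : ∃ r, 1 - θ < r ∧ r < min 1 (1 - θ + η) :=
    exists_between (lt_min (by linarith) (by linarith))
  have hr3 : r < 1 := hr2.trans_le (min_le_left _ _)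
  have hr4 : r < 1 - θ + η := hr2.trans_le (min_le_right _ _)
  have hr0 : 0 < r := by linarith
  have hp : 0 < 1 / (1 - θ) - 1 / r := by
    have := one_div_lt_one_div_of_lt hθ hr1
    linarith
  have h2 := (tend1 hr0).eventually (hR _ hp)
  have h3 : θ - η < 1 - r := by linarith
  filter_upwards [h2, self_mem_nhdsWithin, ev_le_one, small 2 h3] with e h4 he he1 h5
  have he0 : (0 : ℝ) < e := he
  have h6 : 1 / (1 - θ) - (1 / (1 - θ) - 1 / r) = 1 / r := by ring
  rw [h6, ← Real.rpow_mul he0.le, mul_one_div_cancel hr0.ne', Real.rpow_one] at h4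
  have h7 := hle (e ^ r) e (Real.rpow_nonneg he0.le _) (Real.rpow_le_one he0.le he1 hr0.le) he0
  have h8 : e ^ r * M e ≤ e ^ r * (2 * e ^ (1 - r)) := by
    have h9 : e ^ r * (2 * e ^ (1 - r)) = 2 * e := by
      have : e ^ r * e ^ (1 - r) = e := by
        rw [← Real.rpow_add he0]
        have : r + (1 - r) = 1 := by ring
        rw [this, Real.rpow_one]
      linear_combination 2 * this
    linarith
  have h10 := le_of_mul_le_mul_left h8 (Real.rpow_pos_of_pos he0 _)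
  linarith

end

end Pool.Agent.T6.H40.FRCore
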