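import Pool.Agent.T6.H40.Tower
import Pool.Agent.W206.CU.Pole
import Pool.Agent.TH216.EP.Fin

/-!
# Denef's question for towers of compositions, for every prime
-/

set_option autoImplicit false

namespace Pool.Agent.T6.H40

open MvPolynomial Pool.Agent.W206.CU Pool.Agent.Y229.PA
open Pool.Agent.H628R4.TP (IsBFunction)

/-- `u f(x)` -/
noncomputable def uf {ρ : Type} (f : MvPolynomial ρ ℤ) : MvPolynomial (ρ ⊕ Unit) ℤ :=
  X (Sum.inr ()) * rename Sum.inl f

/-- `∑_j a_j X ^ (v j)` -/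
noncomputable def spaV {V : Type} [Fintype V] {r : ℕ} (v : Fin r → V → ℕ) (a : Fin r → ℤ) :
    MvPolynomial V ℤ := ∑ j, C (a j) * ∏ i, X i ^ v j i

theorem follow_stab {n κ : ℕ} {f : MvPolynomial (Fin n) ℤ} (hf : f ≠ 0) {V : Type} [Finite V]
    (φ : MvPolynomial ((Fin n ⊕ Unit) ⊕ (Fin κ ⊕ Fin κ)) ℤ ≃ₐ[ℤ] MvPolynomial V ℤ) :
    Follow f V κ (φ (stabS (uf f) κ)) := by
  have h1 := chain_stabS (follow_chain f) (follow_start f hf) κ
  have h2 := (follow_chain f).iso _ _ φ _ _ h1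
  rw [Nat.zero_add] at h2
  exact h2

/-- The transfer of the poles, with the exact order. -/
theorem pole_exact {P G : PowerSeries ℂ} {a s c d : ℂ} (ha : a ≠ 0) (hs : s ≠ 0) (hd : d ≠ 0)
    (h : ((1 - Polynomial.C a * Polynomial.X : Polynomial ℂ) : PowerSeries ℂ) * G =
      ((Polynomial.C c : Polynomial ℂ) : PowerSeries ℂ) +
      ((Polynomial.C d : Polynomial ℂ) : PowerSeries ℂ) * PowerSeries.rescale s P)
    {T₀ : ℂ} {r : ℕ} (hr : 0 < r) (hP : IsPoleOfOrder P T₀ r) :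
    (1 - a * (T₀ / s) = 0 ∧ IsPoleOfOrder G (T₀ / s) (r + 1)) ∨
      (1 - a * (T₀ / s) ≠ 0 ∧ IsPoleOfOrder G (T₀ / s) r) := by
  obtain ⟨A, B, hA, hB, h1⟩ := hP
  have h2 := congrArg (PowerSeries.rescale s) h1
  rw [map_mul, rescale_coe, rescale_coe] at h2
  set A' := A.comp (Polynomial.C s * Polynomial.X) with hA'
  set B' := B.comp (Polynomial.C s * Polynomial.X) with hB'
  have e1 : ((Polynomial.X - Polynomial.C T₀) ^ r * B).comp (Polynomial.C s * Polynomial.X) =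
      (Polynomial.X - Polynomial.C (T₀ / s)) ^ r * (Polynomial.C (s ^ r) * B') := by
    rw [Polynomial.mul_comp, Polynomial.pow_comp, Polynomial.sub_comp, Polynomial.X_comp,
      Polynomial.C_comp]
    have e2 : (Polynomial.C s * Polynomial.X - Polynomial.C T₀ : Polynomial ℂ) =
        Polynomial.C s * (Polynomial.X - Polynomial.C (T₀ / s)) := by
      rw [mul_sub, ← Polynomial.C_mul, mul_div_cancel₀ _ hs]
    rw [e2, mul_pow, ← Polynomial.C_pow]
    ring
  rw [e1] at h2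
  have hA2 : A'.eval (T₀ / s) ≠ 0 := by
    rw [hA', Polynomial.eval_comp]
    simpa [mul_div_cancel₀ _ hs] using hA
  have hB2 : B'.eval (T₀ / s) ≠ 0 := by
    rw [hB', Polynomial.eval_comp]
    simpa [mul_div_cancel₀ _ hs] using hB
  set D : Polynomial ℂ := (Polynomial.X - Polynomial.C (T₀ / s)) ^ r * (Polynomial.C (s ^ r) * B')
    with hD
  have h3 : ((D * (1 - Polynomial.C a * Polynomial.X) : Polynomial ℂ) : PowerSeries ℂ) * G =
      ((Polynomial.C c * D + Polynomial.C d * A' : Polynomial ℂ) : PowerSeries ℂ) := by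
    have e3 : ((D * (1 - Polynomial.C a * Polynomial.X) : Polynomial ℂ) : PowerSeries ℂ) =
        (D : PowerSeries ℂ) * ((1 - Polynomial.C a * Polynomial.X : Polynomial ℂ) :
          PowerSeries ℂ) := Polynomial.coe_mul _ _
    have e4 : ((Polynomial.C c * D + Polynomial.C d * A' : Polynomial ℂ) : PowerSeries ℂ) =
        ((Polynomial.C c : Polynomial ℂ) : PowerSeries ℂ) * (D : PowerSeries ℂ) +
        ((Polynomial.C d : Polynomial ℂ) : PowerSeries ℂ) * (A' : PowerSeries ℂ) := by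
      rw [Polynomial.coe_add, Polynomial.coe_mul (Polynomial.C c) D,
        Polynomial.coe_mul (Polynomial.C d) A']
    rw [e3, e4, mul_assoc, h, ← h2]
    ring
  have hnum : (Polynomial.C c * D + Polynomial.C d * A').eval (T₀ / s) ≠ 0 := by
    have e3 : D.eval (T₀ / s) = 0 := by
      rw [hD]
      simp [hr.ne']
    rw [Polynomial.eval_add, Polynomial.eval_mul, e3, Polynomial.eval_mul, Polynomial.eval_C,
      Polynomial.eval_C, mul_zero, zero_add]
    exact mul_ne_zero hd hA2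
  by_cases hT : 1 - a * (T₀ / s) = 0
  · refine Or.inl ⟨hT, Polynomial.C c * D + Polynomial.C d * A',
      -Polynomial.C a * (Polynomial.C (s ^ r) * B'), hnum, ?_, ?_⟩
    · rw [Polynomial.eval_mul, Polynomial.eval_mul, Polynomial.eval_neg, Polynomial.eval_C,
        Polynomial.eval_C]
      exact mul_ne_zero (neg_ne_zero.2 ha) (mul_ne_zero (pow_ne_zero _ hs) hB2)
    · rw [← h3]
      congr 2
      have e4 : (1 - Polynomial.C a * Polynomial.X : Polynomial ℂ) =
          -Polynomial.C a * (Polynomial.X - Polynomial.C (T₀ / s)) := by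
        have e5 : (1 : Polynomial ℂ) = Polynomial.C (a * (T₀ / s)) := by
          rw [← Polynomial.C_1]
          congr 1
          linear_combination hT
        rw [e5, Polynomial.C_mul]
        ring
      rw [e4, hD]
      ring
  · refine Or.inr ⟨hT, Polynomial.C c * D + Polynomial.C d * A',
      (1 - Polynomial.C a * Polynomial.X) * (Polynomial.C (s ^ r) * B'), hnum, ?_, ?_⟩
    · rw [Polynomial.eval_mul, Polynomial.eval_mul]
      refine mul_ne_zero ?_ (mul_ne_zero ?_ hB2)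
      · simpa using hT
      · simpa using pow_ne_zero r hs
    · rw [← h3]
      congr 2
      rw [hD]
      ring

/-- every polynomial with a functional equation `IsBFunction` gets one with `BS1` -/
theorem isB_of_bs1 {ρ : Type} [Finite ρ] {F : MvPolynomial ρ ℂ} {b : Polynomial ℂ}
    (h : BS1 F b) : IsBFunction F ((Polynomial.X + 1) * b) := isBFunction_of_bs1 h

/-- **The transfer of the orders and of the multiplicities, from `u f + ∑ y_i z_i` to `f`.** -/
theorem down_u {n κ : ℕ} {f : MvPolynomial (Fin n) ℤ} (hf : f ≠ 0) (hκ : 1 ≤ κ) {V : Type}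
    [Finite V]
    (φ : MvPolynomial ((Fin n ⊕ Unit) ⊕ (Fin κ ⊕ Fin κ)) ℤ ≃ₐ[ℤ] MvPolynomial V ℤ)
    {G : MvPolynomial V ℤ} (hG : φ (stabS (uf f) κ) = G)
    (p : ℕ) [hp : Fact p.Prime] {T₀ : ℂ} {μ : ℕ} (hμ : 0 < μ)
    (hP : IsPoleOfOrder (poincare p f) T₀ μ) {b : Polynomial ℂ} (hb0 : b ≠ 0)
    (hb : IsBFunction (toC f) b)
    (H : ∀ (T₁ : ℂ) (μ₁ : ℕ), 0 < μ₁ → IsPoleOfOrder (poincare p G) T₁ μ₁ →
      ∀ B : Polynomial ℂ, B ≠ 0 → IsBFunction (toC G) B →
        μ₁ ≤ B.rootMultiplicity ((-Real.log ‖T₁‖ / Real.log p : ℝ) : ℂ)) :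
    μ ≤ b.rootMultiplicity ((-Real.log ‖T₀‖ / Real.log p : ℝ) : ℂ) := by
  have hfol : Follow f V κ G := hG ▸ follow_stab hf φ
  have hp0 : (p : ℂ) ≠ 0 := by exact_mod_cast hp.out.ne_zero
  have hp1 : (1 : ℝ) < p := by exact_mod_cast hp.out.one_lt
  have hlp : 0 < Real.log p := Real.log_pos hp1
  have hT0 : T₀ ≠ 0 := pole_ne_zero hμ hP
  have hX : (Polynomial.X + 1 : Polynomial ℂ) ≠ 0 := Polynomial.X_add_C_ne_zero 1
  have hcb : b.comp (Polynomial.X + Polynomial.C (κ : ℂ)) ≠ 0 := comp_ne_zero hb0 _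
  have hB : IsBFunction (toC G)
      ((Polynomial.X + 1) * b.comp (Polynomial.X + Polynomial.C (κ : ℂ))) :=
    isB_of_bs1 (hfol.1 b hb)
  set t₀ : ℝ := -Real.log ‖T₀‖ / Real.log p with ht₀
  set s : ℂ := ((p : ℂ)⁻¹) ^ κ with hs
  have hs0 : s ≠ 0 := pow_ne_zero _ (inv_ne_zero hp0)
  have hTs : T₀ / s = T₀ * (p : ℂ) ^ κ := by
    rw [hs, inv_pow, div_inv_eq_mul]
  have hlog : -Real.log ‖T₀ * (p : ℂ) ^ κ‖ / Real.log p = t₀ - κ := by
    have hp0' : (0 : ℝ) < p := by exact_mod_cast hp.out.pos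
    rw [ht₀, norm_mul, norm_pow, Complex.norm_natCast, Real.log_mul (norm_ne_zero_iff.2 hT0)
      (pow_ne_zero _ hp0'.ne'), Real.log_pow]
    field_simp
    ring
  have hcast : (((t₀ - κ : ℝ)) : ℂ) = (t₀ : ℂ) - κ := by push_cast; rfl
  have hmB : ((Polynomial.X + 1) * b.comp (Polynomial.X + Polynomial.C (κ : ℂ))).rootMultiplicity
      (((t₀ - κ : ℝ)) : ℂ) = (Polynomial.X + 1 : Polynomial ℂ).rootMultiplicity
        (((t₀ - κ : ℝ)) : ℂ) + b.rootMultiplicity (t₀ : ℂ) := by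
    rw [Polynomial.rootMultiplicity_mul (mul_ne_zero hX hcb), rootMultiplicity_comp, hcast,
      sub_add_cancel]
  have hX1 : (Polynomial.X + 1 : Polynomial ℂ) = Polynomial.X - Polynomial.C (-1) := by simp
  have hm1 : (Polynomial.X + 1 : Polynomial ℂ).rootMultiplicity (((t₀ - κ : ℝ)) : ℂ) ≤ 1 := by
    classical
    rw [hX1, Polynomial.rootMultiplicity_X_sub_C]
    split_ifs <;> omega
  rcases pole_exact (inv_ne_zero hp0) hs0 (c := (p : ℂ)⁻¹) (d := 1 - (p : ℂ)⁻¹)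
    (by
      rw [sub_ne_zero]
      intro h
      have h1 : (p : ℂ) = 1 := by
        have := congrArg (fun x => (x)⁻¹) h
        simpa using this.symm
      have h2 : (p : ℕ) = 1 := by exact_mod_cast h1
      exact hp.out.one_lt.ne' h2) (poincare_eq hfol p) hμ hP with ⟨hT, hQ⟩ | ⟨hT, hQ⟩
  · have h1 := H _ _ (Nat.succ_pos μ) hQ _ (mul_ne_zero hX hcb) hB
    rw [hTs, hlog, hmB] at h1
    omega
  · have h1 := H _ _ hμ hQ _ (mul_ne_zero hX hcb) hB
    rw [hTs, hlog, hmB] at h1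
    have hne : (((t₀ - κ : ℝ)) : ℂ) ≠ -1 := by
      intro h
      have h3 : ((t₀ - κ : ℝ) : ℂ) = ((-1 : ℝ) : ℂ) := by rw [h]; push_cast; rfl
      have h4 : t₀ - κ = -1 := by exact_mod_cast h3
      have hκ' : (1 : ℝ) ≤ κ := by exact_mod_cast hκ
      rcases pole_norm p f hμ hP with h5 | h5
      · rw [h5, norm_one, Real.log_one, neg_zero, zero_div] at ht₀
        have h6 : (κ : ℝ) = 1 := by linarith
        have h7 : κ = 1 := by exact_mod_cast h6
        apply hT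
        rw [hTs, h5, h7, pow_one, one_mul, inv_mul_cancel₀ hp0, sub_self]
      · have h6 : t₀ < 0 := by
          rw [ht₀]
          exact div_neg_of_neg_of_pos (by have := Real.log_pos h5; linarith) hlp
        linarith
    have h3 : (Polynomial.X + 1 : Polynomial ℂ).rootMultiplicity (((t₀ - κ : ℝ)) : ℂ) = 0 := by
      apply Polynomial.rootMultiplicity_eq_zero
      intro hroot
      apply hne
      rw [Polynomial.IsRoot.def] at hroot
      simp only [Polynomial.eval_add, Polynomial.eval_X, Polynomial.eval_one] at hroot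
      linear_combination hroot
    rw [h3, zero_add] at h1
    exact h1

/-- affinely independent exponents, in any set of variables -/
theorem ind_all {V : Type} [Fintype V] {r : ℕ} (hr : 2 ≤ r) (v : Fin r → V → ℕ)
    (hv : AffineIndependent ℚ (fun (j : Fin r) (i : V) => (v j i : ℚ)))
    (a : Fin r → ℤ) (ha : ∀ j, a j ≠ 0) (p : ℕ) [hp : Fact p.Prime] (T₁ : ℂ) (μ₁ : ℕ)
    (hμ : 0 < μ₁) (hP : IsPoleOfOrder (poincare p (spaV v a)) T₁ μ₁) (B : Polynomial ℂ)
    (hB0 : B ≠ 0) (hB : IsBFunction (toC (spaV v a)) B) :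
    μ₁ ≤ B.rootMultiplicity ((-Real.log ‖T₁‖ / Real.log p : ℝ) : ℂ) := by
  classical
  set e : V ≃ Fin (Fintype.card V) := Fintype.equivFin V with he
  have hv' : AffineIndependent ℚ
      (fun (j : Fin r) (i : Fin (Fintype.card V)) => (v j (e.symm i) : ℚ)) :=
    (AffineEquiv.affineIndependent_iff
      (LinearEquiv.funCongrLeft ℚ ℚ e.symm).toAffineEquiv).2 hv
  have hf : renameEquiv ℤ e (spaV v a) =
      ∑ j, C (a j) * ∏ i, X i ^ v j (e.symm i) := by
    rw [renameEquiv_apply]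
    unfold spaV
    rw [map_sum]
    refine Finset.sum_congr rfl fun j _ => ?_
    rw [map_mul, rename_C, map_prod]
    congr 1
    rw [← Equiv.prod_comp e]
    refine Finset.prod_congr rfl fun i _ => ?_
    rw [map_pow, rename_X, Equiv.symm_apply_apply]
  have h3 := isBFunction_iso (isoC (renameEquiv ℤ e)) hB
  rw [isoC_toC] at h3
  rw [← poincare_iso p (renameEquiv ℤ e)] at hP
  exact Pool.Agent.TH216.EP.indEP hr (fun j i => v j (e.symm i)) hv' a ha _ hf hp.out T₁ μ₁ hμ hP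
    B hB0 h3

/-- the variables `x` and `z` among `x, u` and `z` -/
noncomputable def addU {n κ : ℕ} (P : MvPolynomial (Fin n ⊕ Fin κ) ℤ) :
    MvPolynomial ((Fin n ⊕ Unit) ⊕ Fin κ) ℤ := rename (Sum.map Sum.inl id) P

/-- `u Φ(x, z) + ∑_i y_i (z_i - q_i(x, z))` -/
noncomputable def towerU {n κ : ℕ} (Φ : MvPolynomial (Fin n ⊕ Fin κ) ℤ)
    (q : Fin κ → MvPolynomial (Fin n ⊕ Fin κ) ℤ) :
    MvPolynomial ((Fin n ⊕ Unit) ⊕ (Fin κ ⊕ Fin κ)) ℤ :=
  X (Sum.inl (Sum.inr ())) * rename (Sum.map Sum.inl Sum.inr) Φ +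
    ∑ i : Fin κ, X (Sum.inr (Sum.inl i)) *
      (X (Sum.inr (Sum.inr i)) - rename (Sum.map Sum.inl Sum.inr) (q i))

theorem emb_addU {n κ : ℕ} (P : MvPolynomial (Fin n ⊕ Fin κ) ℤ) :
    rename embS (addU P) = rename (Sum.map Sum.inl Sum.inr) P := by
  unfold addU
  rw [rename_rename]
  congr 2
  funext i
  rcases i with i | i <;> rfl

theorem towerU_eq {n κ : ℕ} (Φ : MvPolynomial (Fin n ⊕ Fin κ) ℤ)
    (q : Fin κ → MvPolynomial (Fin n ⊕ Fin κ) ℤ) :
    graphT (X (Sum.inl (Sum.inr ())) * addU Φ) (fun i => addU (q i)) = towerU Φ q := by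
  unfold graphT towerU
  rw [map_mul, emb_addU, rename_X]
  congr 1
  refine Finset.sum_congr rfl fun i _ => ?_
  rw [emb_addU]

theorem tri_addU {n κ : ℕ} {q : Fin κ → MvPolynomial (Fin n ⊕ Fin κ) ℤ} (hq : Tri q) :
    Tri fun i => addU (q i) := by
  classical
  intro i j h
  have h1 := vars_rename (Sum.map Sum.inl id) (q i) h
  rw [Finset.mem_image] at h1
  obtain ⟨w, hw, hw'⟩ := h1
  rcases w with w | w
  · simp at hw'
  · have : w = j := by simpa using hw'
    exact hq i j (this ▸ hw)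

theorem aeval_addU {n κ : ℕ} (g : Fin κ → MvPolynomial (Fin n) ℤ)
    (P : MvPolynomial (Fin n ⊕ Fin κ) ℤ) :
    aeval (Sum.elim (X : Fin n ⊕ Unit → MvPolynomial (Fin n ⊕ Unit) ℤ)
      fun i => rename Sum.inl (g i)) (addU P) = rename Sum.inl (aeval (Sum.elim X g) P) := by
  unfold addU
  rw [aeval_rename, algHom_aeval]
  congr 2
  funext i
  rcases i with i | i
  · simp
  · simp

/-- **Denef's question for towers of compositions, for every prime, with orders.** -/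
theorem tower_main {n κ r : ℕ} (hκ : 1 ≤ κ) (hr : 2 ≤ r) (Φ : MvPolynomial (Fin n ⊕ Fin κ) ℤ)
    (q : Fin κ → MvPolynomial (Fin n ⊕ Fin κ) ℤ) (hq : Tri q)
    (g : Fin κ → MvPolynomial (Fin n) ℤ) (hg : ∀ i, g i = aeval (Sum.elim X g) (q i))
    (f : MvPolynomial (Fin n) ℤ) (hf : f = aeval (Sum.elim X g) Φ) (hf0 : f ≠ 0)
    (v : Fin r → (Fin n ⊕ Unit) ⊕ (Fin κ ⊕ Fin κ) → ℕ)
    (hv : AffineIndependent ℚ fun (j : Fin r) i => (v j i : ℚ))
    (a : Fin r → ℤ) (ha : ∀ j, a j ≠ 0) (hF : towerU Φ q = spaV v a)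
    (p : ℕ) (hp : p.Prime) (T₀ : ℂ) (μ : ℕ) (hμ : 0 < μ)
    (hP : IsPoleOfOrder (poincare p f) T₀ μ) (b : Polynomial ℂ) (hb0 : b ≠ 0)
    (hb : IsBFunction (map (Int.castRingHom ℂ) f) b) :
    μ ≤ b.rootMultiplicity ((-Real.log ‖T₀‖ / Real.log p : ℝ) : ℂ) := by
  have : Fact p.Prime := ⟨hp⟩
  obtain ⟨ψ, hψ⟩ := tower_iso (X (Sum.inl (Sum.inr ())) * addU Φ) (tri_addU hq)
    (fun i => rename Sum.inl (g i)) (fun i => by rw [aeval_addU, ← hg i])
  have h1 : aeval (Sum.elim (X : Fin n ⊕ Unit → MvPolynomial (Fin n ⊕ Unit) ℤ)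
      fun i => rename Sum.inl (g i)) (X (Sum.inl (Sum.inr ())) * addU Φ) = uf f := by
    rw [map_mul, aeval_addU, aeval_X, Sum.elim_inl, ← hf]
    rfl
  rw [h1, towerU_eq, hF] at hψ
  exact down_u hf0 hκ ψ hψ p hμ hP hb0 hb fun T₁ μ₁ h2 h3 B h4 h5 =>
    ind_all hr v hv a ha p T₁ μ₁ h2 h3 B h4 h5

end Pool.Agent.T6.H40
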