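import Pool.Agent.T6.H37.PA.Defs
import Pool.Agent.TH410.Equivalence

set_option autoImplicit false

/-!
The linear bound for the partition rank over all finite fields implies the bound of `TH410` for the
full alphabet, and so for all alphabets with at least two letters.
-/

namespace Pool.Agent.T6.H40.PAI

open Finset Pool.Agent.TH410

variable {p : ℕ} [Fact p.Prime] {n e : ℕ}

/-- the product of a form in the arguments in `I` and one in the other arguments -/
noncomputable def prodForm {d : ℕ} (I : Finset (Fin d))
    (a : MultilinearMap (ZMod p) (fun _ : {i // i ∈ I} => (Fin n → ZMod p)) (ZMod p))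
    (b : MultilinearMap (ZMod p) (fun _ : {i // i ∉ I} => (Fin n → ZMod p)) (ZMod p)) :
    Form p d n :=
  MultilinearMap.mk' (fun x => a (fun j => x j.1) * b (fun j => x j.1))
    (by
      classical
      intro x i u v
      by_cases hi : i ∈ I
      · have h1 : ∀ w : Fin n → ZMod p, (fun j : {i // i ∈ I} => Function.update x i w j.1) =
            Function.update (fun j : {i // i ∈ I} => x j.1) ⟨i, hi⟩ w := by
          intro w
          funext j
          by_cases hj : j = ⟨i, hi⟩
          · subst hj
            rw [Function.update_self, Function.update_self]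
          · rw [Function.update_of_ne hj, Function.update_of_ne fun h => hj (Subtype.ext h)]
        have h2 : ∀ w : Fin n → ZMod p, (fun j : {i // i ∉ I} => Function.update x i w j.1) =
            fun j : {i // i ∉ I} => x j.1 := by
          intro w
          funext j
          rw [Function.update_of_ne]
          rintro rfl
          exact j.2 hi
        rw [h1, h1, h1, h2, h2, h2, MultilinearMap.map_update_add, add_mul]
      · have h1 : ∀ w : Fin n → ZMod p, (fun j : {i // i ∉ I} => Function.update x i w j.1) =
            Function.update (fun j : {i // i ∉ I} => x j.1) ⟨i, hi⟩ w := by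
          intro w
          funext j
          by_cases hj : j = ⟨i, hi⟩
          · subst hj
            rw [Function.update_self, Function.update_self]
          · rw [Function.update_of_ne hj, Function.update_of_ne fun h => hj (Subtype.ext h)]
        have h2 : ∀ w : Fin n → ZMod p, (fun j : {i // i ∈ I} => Function.update x i w j.1) =
            fun j : {i // i ∈ I} => x j.1 := by
          intro w
          funext j
          rw [Function.update_of_ne]
          rintro rfl
          exact hi j.2
        rw [h1, h1, h1, h2, h2, h2, MultilinearMap.map_update_add, mul_add])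
    (by
      classical
      intro x i c u
      by_cases hi : i ∈ I
      · have h1 : ∀ w : Fin n → ZMod p, (fun j : {i // i ∈ I} => Function.update x i w j.1) =
            Function.update (fun j : {i // i ∈ I} => x j.1) ⟨i, hi⟩ w := by
          intro w
          funext j
          by_cases hj : j = ⟨i, hi⟩
          · subst hj
            rw [Function.update_self, Function.update_self]
          · rw [Function.update_of_ne hj, Function.update_of_ne fun h => hj (Subtype.ext h)]
        have h2 : ∀ w : Fin n → ZMod p, (fun j : {i // i ∉ I} => Function.update x i w j.1) =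
            fun j : {i // i ∉ I} => x j.1 := by
          intro w
          funext j
          rw [Function.update_of_ne]
          rintro rfl
          exact j.2 hi
        rw [h1, h1, h2, h2, MultilinearMap.map_update_smul, smul_mul_assoc]
      · have h1 : ∀ w : Fin n → ZMod p, (fun j : {i // i ∉ I} => Function.update x i w j.1) =
            Function.update (fun j : {i // i ∉ I} => x j.1) ⟨i, hi⟩ w := by
          intro w
          funext j
          by_cases hj : j = ⟨i, hi⟩
          · subst hj
            rw [Function.update_self, Function.update_self]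
          · rw [Function.update_of_ne hj, Function.update_of_ne fun h => hj (Subtype.ext h)]
        have h2 : ∀ w : Fin n → ZMod p, (fun j : {i // i ∈ I} => Function.update x i w j.1) =
            fun j : {i // i ∈ I} => x j.1 := by
          intro w
          funext j
          rw [Function.update_of_ne]
          rintro rfl
          exact hi j.2
        rw [h1, h1, h2, h2, MultilinearMap.map_update_smul, mul_smul_comm])

theorem prodForm_apply {d : ℕ} (I : Finset (Fin d))
    (a : MultilinearMap (ZMod p) (fun _ : {i // i ∈ I} => (Fin n → ZMod p)) (ZMod p))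
    (b : MultilinearMap (ZMod p) (fun _ : {i // i ∉ I} => (Fin n → ZMod p)) (ZMod p))
    (x : Fin d → (Fin n → ZMod p)) :
    prodForm I a b x = a (fun j => x j.1) * b (fun j => x j.1) := rfl

theorem prle_of_prle {m : Form p (e + 2) n} {r : ℕ}
    (h : Pool.Agent.T6.H37.PA.PRLe (F := ZMod p) (n := fun _ : Fin (e + 2) => n) m r) :
    PRLe m r := by
  obtain ⟨S, a, b, hS, hx⟩ := h
  refine ⟨fun k => prodForm (S k) (a k) (b k), fun k => ⟨S k, (hS k).1, (hS k).2, a k, b k,
    fun x => rfl⟩, ?_⟩
  refine MultilinearMap.ext fun x => ?_
  rw [_root_.sum_apply]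
  exact hx x

omit [Fact p.Prime] in
theorem update_zero_eq (x : Fin (e + 2) → (Fin n → ZMod p)) (y : Fin n → ZMod p) :
    Function.update x 0 y = (Fin.cons y (Fin.tail x) : Fin (e + 2) → (Fin n → ZMod p)) := by
  funext j
  refine Fin.cases ?_ (fun j => ?_) j
  · rw [Function.update_self, Fin.cons_zero]
  · rw [Function.update_of_ne (Fin.succ_ne_zero j), Fin.cons_succ]
    rfl

theorem coeff_eq_zero_iff (m : Form p (e + 2) n) (x : Fin (e + 1) → (Fin n → ZMod p)) :
    coeff m x = 0 ↔ ∀ y : Fin n → ZMod p,
      m (Fin.cons y x : Fin (e + 2) → (Fin n → ZMod p)) = 0 := by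
  constructor
  · intro h y
    rw [coeff_spec, h]
    simp
  · intro h
    funext i
    have h1 := h (Pi.single i 1)
    rw [coeff_spec] at h1
    simpa [Pi.single_apply] using h1

/-- the analytic rank and the bias -/
theorem arank_eq {t : ZMod p} (ht : t ≠ 0) (m : Form p (e + 2) n) :
    Pool.Agent.T6.H37.PA.arank (F := ZMod p) (n := fun _ : Fin (e + 2) => n) m =
      -Real.logb p ‖bias univ t m‖ := by
  classical
  unfold Pool.Agent.T6.H37.PA.arank
  rw [ZMod.card, norm_bias_univ ht]
  congr 2
  unfold pavg
  set V := (Fin n → ZMod p) with hV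
  have h1 : ∀ x : Fin (e + 1) → V, (∏ j, unif p n (x j)) * zind (coeff m x) =
      if coeff m x = 0 then ((Fintype.card V : ℝ) ^ (e + 1))⁻¹ else 0 := by
    intro x
    unfold zind
    simp only [unif_eq, Finset.prod_const, Finset.card_univ, Fintype.card_fin, inv_pow]
    split_ifs with h
    · rw [mul_one]
    · rw [mul_zero]
  rw [Finset.sum_congr rfl fun x _ => h1 x, ← Finset.sum_filter, Finset.sum_const, nsmul_eq_mul]
  -- the two cardinalities
  set E : V × {x : Fin (e + 1) → V // coeff m x = 0} ≃
      {x : (i : Fin (e + 2)) → Fin ((fun _ : Fin (e + 2) => n) i) → ZMod p //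
        ∀ y : Fin ((fun _ : Fin (e + 2) => n) 0) → ZMod p, m (Function.update x 0 y) = 0} :=
    { toFun := fun w => ⟨Fin.cons w.1 w.2.1, fun y => by
        have h3 := (coeff_eq_zero_iff m w.2.1).1 w.2.2 y
        rw [update_zero_eq, Fin.tail_cons]
        exact h3⟩
      invFun := fun x => (x.1 0, ⟨Fin.tail x.1, (coeff_eq_zero_iff m _).2 fun y => by
        have h3 := x.2 y
        rw [update_zero_eq] at h3
        exact h3⟩)
      left_inv := fun w => rfl
      right_inv := fun x => Subtype.ext (Fin.cons_self_tail x.1) } with hE
  have h2 : Nat.card {x : (i : Fin (e + 2)) → Fin ((fun _ : Fin (e + 2) => n) i) → ZMod p //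
      ∀ y : Fin ((fun _ : Fin (e + 2) => n) 0) → ZMod p, m (Function.update x 0 y) = 0} =
      Fintype.card V * (Finset.univ.filter fun x : Fin (e + 1) → V => coeff m x = 0).card := by
    rw [← Nat.card_congr E, Nat.card_prod, Nat.card_eq_fintype_card, Nat.card_eq_fintype_card,
      Fintype.card_subtype]
  have h3 : Nat.card ((i : Fin (e + 2)) → Fin ((fun _ : Fin (e + 2) => n) i) → ZMod p) =
      Fintype.card V ^ (e + 2) := by
    rw [Nat.card_eq_fintype_card]
    show Fintype.card (Fin (e + 2) → V) = _
    rw [Fintype.card_fun, Fintype.card_fin]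
  rw [h2, h3]
  have h4 : (Fintype.card V : ℝ) ≠ 0 := by
    have : 0 < Fintype.card V := Fintype.card_pos
    positivity
  push_cast
  field_simp
  ring

theorem linearBound_of_uniform (h : ∀ e, Pool.Agent.T6.H37.PA.Uniform e) (d : ℕ) (hd : 2 ≤ d) :
    LinearBound p d univ := by
  obtain ⟨e, rfl⟩ : ∃ e, d = e + 2 := ⟨d - 2, by omega⟩
  obtain ⟨C, hC0, hC⟩ := h e
  have hp : (1 : ℝ) < (p : ℝ) := by exact_mod_cast (Fact.out : p.Prime).one_lt
  have hlogp : 0 < Real.log p := Real.log_pos hp
  refine ⟨C / Real.log p + 1, by positivity, ?_⟩
  intro n ε m hε hε1 ⟨t, ht, hbias⟩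
  obtain ⟨r, hr, hr2⟩ := hC (ZMod p) (fun _ => n) m
  refine ⟨r, prle_of_prle hr2, hr.trans ?_⟩
  rw [arank_eq ht]
  have h1 : Real.log (1 / ε) = - Real.log ε := by rw [one_div, Real.log_inv]
  have h2 : 0 ≤ Real.log (1 / ε) := by
    rw [h1]
    have := Real.log_nonpos hε.le hε1
    linarith
  have h3 : -Real.logb p ‖bias univ t m‖ ≤ Real.log (1 / ε) / Real.log p := by
    rw [h1, Real.logb, ← neg_div, div_le_div_iff_of_pos_right hlogp]
    exact neg_le_neg (Real.log_le_log hε hbias)
  calc C * -Real.logb p ‖bias univ t m‖ ≤ C * (Real.log (1 / ε) / Real.log p) :=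
        mul_le_mul_of_nonneg_left h3 hC0
    _ = C / Real.log p * Real.log (1 / ε) := by ring
    _ ≤ (C / Real.log p + 1) * Real.log (1 / ε) := by
        rw [add_mul, one_mul]
        linarith

/-- The assertion for all alphabets. -/
theorem linearBound_all (h : ∀ e, Pool.Agent.T6.H37.PA.Uniform e) (d : ℕ) (hd : 2 ≤ d)
    (S : Finset (ZMod p)) (hS : 2 ≤ S.card) : LinearBound p d S :=
  (linearBound_of_uniform h d hd).of_univ hd hS

end Pool.Agent.T6.H40.PAI
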