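import Pool.Agent.Y229.PA.GkS

/-!
# Towers of compositions: a triangular system of new variables
-/

set_option autoImplicit false

namespace Pool.Agent.T6.H40

open MvPolynomial Pool.Agent.W206.CU Pool.Agent.Y229.PA

section tri
variable {ρ : Type} {κ : ℕ}

/-- `q_i` involves only the `z_j` with `j < i` -/
def Tri (q : Fin κ → MvPolynomial (ρ ⊕ Fin κ) ℤ) : Prop :=
  ∀ i j, Sum.inr j ∈ (q i).vars → j < i

/-- `Φ(x, z) + ∑ y_i (z_i - q_i(x, z))` -/
noncomputable def graphT (Φ : MvPolynomial (ρ ⊕ Fin κ) ℤ)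
    (q : Fin κ → MvPolynomial (ρ ⊕ Fin κ) ℤ) : MvPolynomial (ρ ⊕ (Fin κ ⊕ Fin κ)) ℤ :=
  rename embS Φ +
    ∑ i : Fin κ, X (Sum.inr (Sum.inl i)) * (X (Sum.inr (Sum.inr i)) - rename embS (q i))

theorem aeval_tri {R : Type} [CommRing R] [Algebra ℤ R] {q : Fin κ → MvPolynomial (ρ ⊕ Fin κ) ℤ}
    (hq : Tri q) (i : Fin κ) (a : ρ → R) (b c : Fin κ → R) (h : ∀ j, j < i → b j = c j) :
    aeval (Sum.elim a b) (q i) = aeval (Sum.elim a c) (q i) := by
  refine hom_congr_vars (f₁ := (aeval (Sum.elim a b) : MvPolynomial (ρ ⊕ Fin κ) ℤ →ₐ[ℤ] R).toRingHom)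
    (f₂ := (aeval (Sum.elim a c) : MvPolynomial (ρ ⊕ Fin κ) ℤ →ₐ[ℤ] R).toRingHom)
    (RingHom.ext_int _ _) ?_ rfl
  rintro (x | j) hv _
  · simp
  · simpa using h j (hq i j hv)

/-- the iteration which solves `h_i = c_i + q_i(a, h)` -/
noncomputable def itr {R : Type} [CommRing R] [Algebra ℤ R] (q : Fin κ → MvPolynomial (ρ ⊕ Fin κ) ℤ)
    (a : ρ → R) (c : Fin κ → R) : ℕ → Fin κ → R
  | 0 => fun _ => 0
  | t + 1 => fun i => c i + aeval (Sum.elim a (itr q a c t)) (q i)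

theorem itr_stab {R : Type} [CommRing R] [Algebra ℤ R] {q : Fin κ → MvPolynomial (ρ ⊕ Fin κ) ℤ} (hq : Tri q)
    (a : ρ → R) (c : Fin κ → R) (t : ℕ) (i : Fin κ) (hi : (i : ℕ) < t) :
    itr q a c (t + 1) i = itr q a c t i := by
  induction t generalizing i with
  | zero => omega
  | succ t ih =>
    show c i + _ = c i + _
    congr 1
    refine aeval_tri hq i _ _ _ fun j hj => ih j ?_
    have : (j : ℕ) < i := hj
    omega

theorem exists_sol {R : Type} [CommRing R] [Algebra ℤ R] {q : Fin κ → MvPolynomial (ρ ⊕ Fin κ) ℤ} (hq : Tri q)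
    (a : ρ → R) (c : Fin κ → R) : ∃ h : Fin κ → R, ∀ i, h i = c i + aeval (Sum.elim a h) (q i) := by
  refine ⟨itr q a c κ, fun i => ?_⟩
  exact (itr_stab hq a c κ i i.2).symm

theorem sol_unique {R : Type} [CommRing R] [Algebra ℤ R] {q : Fin κ → MvPolynomial (ρ ⊕ Fin κ) ℤ} (hq : Tri q)
    (a : ρ → R) (c h h' : Fin κ → R) (h1 : ∀ i, h i = c i + aeval (Sum.elim a h) (q i))
    (h2 : ∀ i, h' i = c i + aeval (Sum.elim a h') (q i)) : h = h' := by
  have key : ∀ t : ℕ, ∀ i : Fin κ, (i : ℕ) < t → h i = h' i := by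
    intro t
    induction t with
    | zero => intro i hi; omega
    | succ t ih =>
      intro i hi
      rw [h1, h2]
      congr 1
      refine aeval_tri hq i _ _ _ fun j hj => ih j ?_
      have : (j : ℕ) < i := hj
      omega
  funext i
  exact key κ i i.2

theorem algHom_aeval {R S : Type} [CommRing R] [CommRing S] [Algebra ℤ R] [Algebra ℤ S] (φ : R →ₐ[ℤ] S) {τ : Type}
    (a : τ → R) (P : MvPolynomial τ ℤ) : φ (aeval a P) = aeval (fun i => φ (a i)) P := by
  have h : φ.comp (aeval a) = aeval fun i => φ (a i) := by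
    apply MvPolynomial.algHom_ext
    intro i
    rw [AlgHom.comp_apply, aeval_X, aeval_X]
  exact DFunLike.congr_fun h P

theorem elim_comp {R S : Type} {τ : Type} (φ : R → S) (a : ρ → R) (b : τ → R) :
    (fun i => φ ((Sum.elim a b : ρ ⊕ τ → R) i)) = Sum.elim (fun i => φ (a i)) fun i => φ (b i) := by
  funext i
  rcases i with i | i <;> rfl

/-- **Towers.** Let `g_i(x) = q_i(x, g(x))`, where `q_i` involves only the `z_j` with `j < i`. Then
`Φ(x, z) + ∑ y_i (z_i - q_i(x, z))` is `Φ(x, g(x)) + ∑ y_i z_i`, up to an automorphism. -/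
theorem tower_iso (Φ : MvPolynomial (ρ ⊕ Fin κ) ℤ) {q : Fin κ → MvPolynomial (ρ ⊕ Fin κ) ℤ}
    (hq : Tri q) (g : Fin κ → MvPolynomial ρ ℤ) (hg : ∀ i, g i = aeval (Sum.elim X g) (q i)) :
    ∃ ψ : MvPolynomial (ρ ⊕ (Fin κ ⊕ Fin κ)) ℤ ≃ₐ[ℤ] MvPolynomial (ρ ⊕ (Fin κ ⊕ Fin κ)) ℤ,
      ψ (stabS (aeval (Sum.elim X g) Φ) κ) = graphT Φ q := by
  obtain ⟨h, hh⟩ := exists_sol (R := MvPolynomial (ρ ⊕ Fin κ) ℤ) hq (fun i => X (Sum.inl i))
    (fun i => X (Sum.inr i))
  -- the automorphism `α` and its inverse `β`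
  set α : MvPolynomial (ρ ⊕ (Fin κ ⊕ Fin κ)) ℤ →ₐ[ℤ] MvPolynomial (ρ ⊕ (Fin κ ⊕ Fin κ)) ℤ :=
    sub3 (fun i => X (Sum.inl i)) (fun i => X (Sum.inr (Sum.inl i)))
      (fun i => X (Sum.inr (Sum.inr i)) - rename embS (q i)) with hα
  set β : MvPolynomial (ρ ⊕ (Fin κ ⊕ Fin κ)) ℤ →ₐ[ℤ] MvPolynomial (ρ ⊕ (Fin κ ⊕ Fin κ)) ℤ :=
    sub3 (fun i => X (Sum.inl i)) (fun i => X (Sum.inr (Sum.inl i)))
      (fun i => rename embS (h i)) with hβ
  have β_emb : ∀ P : MvPolynomial (ρ ⊕ Fin κ) ℤ, β (rename embS P) =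
      rename embS (aeval (Sum.elim (fun i => X (Sum.inl i)) h) P) := by
    intro P
    have e : β.comp (rename embS) = (rename embS).comp
        (aeval (Sum.elim (fun i => X (Sum.inl i)) h)) := by
      apply MvPolynomial.algHom_ext
      rintro (i | i)
      · rw [AlgHom.comp_apply, AlgHom.comp_apply, rename_X, aeval_X, Sum.elim_inl, rename_X]
        exact sub3_x _ _ _ i
      · rw [AlgHom.comp_apply, AlgHom.comp_apply, rename_X, aeval_X, Sum.elim_inr]
        exact sub3_z _ _ _ i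
    exact DFunLike.congr_fun e P
  -- `h' = α h` in the big ring
  have αh : ∀ i, α (rename embS (h i)) = X (Sum.inr (Sum.inr i)) := by
    have h1 : (fun i => α (rename embS (h i))) =
        fun i : Fin κ => (X (Sum.inr (Sum.inr i)) : MvPolynomial (ρ ⊕ (Fin κ ⊕ Fin κ)) ℤ) := by
      refine sol_unique (R := MvPolynomial (ρ ⊕ (Fin κ ⊕ Fin κ)) ℤ) hq (fun i => X (Sum.inl i))
        (fun i => X (Sum.inr (Sum.inr i)) - rename embS (q i)) _ _ (fun i => ?_) (fun i => ?_)
      · have e1 := congrArg (fun P => α (rename embS P)) (hh i)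
        rw [map_add, map_add, rename_X] at e1
        rw [e1]
        congr 1
        · exact sub3_z _ _ _ i
        · rw [algHom_aeval, algHom_aeval]
          congr 2
          funext j
          rcases j with j | j
          · rw [Sum.elim_inl, Sum.elim_inl, rename_X]
            exact sub3_x _ _ _ j
          · rfl
      · have e2 : aeval (Sum.elim (fun i => X (Sum.inl i))
            (fun i => X (Sum.inr (Sum.inr i)) : Fin κ → MvPolynomial (ρ ⊕ (Fin κ ⊕ Fin κ)) ℤ))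
            (q i) = rename embS (q i) := by
          have e3 : (aeval (Sum.elim (fun i => X (Sum.inl i))
              (fun i => X (Sum.inr (Sum.inr i)) : Fin κ → MvPolynomial (ρ ⊕ (Fin κ ⊕ Fin κ)) ℤ)) :
              MvPolynomial (ρ ⊕ Fin κ) ℤ →ₐ[ℤ] _) = rename embS := by
            apply MvPolynomial.algHom_ext
            rintro (j | j)
            · rw [aeval_X, rename_X]; rfl
            · rw [aeval_X, rename_X]; rfl
          rw [e3]
        rw [e2, sub_add_cancel]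
    intro i
    exact congrFun h1 i
  have h12 : α.comp β = AlgHom.id ℤ _ := by
    refine ext3 (fun i => ?_) (fun i => ?_) (fun i => ?_)
    · rw [AlgHom.comp_apply, AlgHom.id_apply, hβ, sub3_x, hα, sub3_x]
    · rw [AlgHom.comp_apply, AlgHom.id_apply, hβ, sub3_y, hα, sub3_y]
    · rw [AlgHom.comp_apply, AlgHom.id_apply, hβ, sub3_z]
      exact αh i
  have βz : ∀ i, β (X (Sum.inr (Sum.inr i)) - rename embS (q i)) = X (Sum.inr (Sum.inr i)) := by
    intro i
    rw [map_sub, β_emb]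
    have e1 : β (X (Sum.inr (Sum.inr i))) = rename embS (h i) := sub3_z _ _ _ i
    rw [e1]
    have e2 := congrArg (rename (embS (ρ := ρ) (κ := κ))) (hh i)
    rw [map_add, rename_X] at e2
    rw [e2, add_sub_cancel_right]
    rfl
  have h21 : β.comp α = AlgHom.id ℤ _ := by
    refine ext3 (fun i => ?_) (fun i => ?_) (fun i => ?_)
    · rw [AlgHom.comp_apply, AlgHom.id_apply, hα, sub3_x, hβ, sub3_x]
    · rw [AlgHom.comp_apply, AlgHom.id_apply, hα, sub3_y, hβ, sub3_y]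
    · rw [AlgHom.comp_apply, AlgHom.id_apply, hα, sub3_z]
      exact βz i
  set A : MvPolynomial (ρ ⊕ (Fin κ ⊕ Fin κ)) ℤ ≃ₐ[ℤ] MvPolynomial (ρ ⊕ (Fin κ ⊕ Fin κ)) ℤ :=
    AlgEquiv.ofAlgHom α β h12 h21 with hA
  -- the polynomial `G(x, z) = Φ(x, h(x, z))`
  set G : MvPolynomial (ρ ⊕ Fin κ) ℤ := aeval (Sum.elim (fun i => X (Sum.inl i)) h) Φ with hG
  obtain ⟨ψ, hψ⟩ := gkS G (fun _ => 0)
  have hG0 : aeval (Sum.elim (X : ρ → MvPolynomial ρ ℤ) (fun _ : Fin κ => 0)) G =
      aeval (Sum.elim X g) Φ := by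
    rw [hG, algHom_aeval, elim_comp]
    have e1 : (fun i => aeval (Sum.elim (X : ρ → MvPolynomial ρ ℤ) (fun _ : Fin κ => 0)) (h i)) =
        g := by
      refine sol_unique hq X (fun _ => 0) _ _ (fun i => ?_) (fun i => ?_)
      · have e2 := congrArg
          (aeval (Sum.elim (X : ρ → MvPolynomial ρ ℤ) (fun _ : Fin κ => 0))) (hh i)
        rw [map_add, aeval_X, Sum.elim_inr, algHom_aeval, elim_comp] at e2
        rw [e2]
        congr 3
        congr 1
        funext j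
        rw [aeval_X, Sum.elim_inl]
      · rw [zero_add]
        exact hg i
    rw [e1]
    congr 2
    funext j
    rcases j with j | j
    · rw [Sum.elim_inl, Sum.elim_inl, aeval_X, Sum.elim_inl]
    · rfl
  rw [hG0] at hψ
  refine ⟨ψ.trans A, ?_⟩
  show A (ψ _) = _
  rw [hψ]
  have hβF : β (graphT Φ q) = graphS G (fun _ => 0) := by
    unfold graphT graphS
    rw [map_add, β_emb, map_sum]
    congr 1
    refine Finset.sum_congr rfl fun i _ => ?_
    rw [map_mul, βz, map_zero, sub_zero]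
    congr 1
    exact sub3_y _ _ _ i
  rw [← hβF]
  show α (β (graphT Φ q)) = _
  exact DFunLike.congr_fun h12 _

end tri

end Pool.Agent.T6.H40
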